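import Pool.Agent.H306Z.Wilf.One

/-! Wilf's inequality (the case `d = 1`) holds up to the absolute factor `log 2`. -/

set_option autoImplicit false

namespace Pool.Agent.Results.MP_299528_co.AWilfLogTwo

/-- The minimal generating set: the nonzero elements of `S` that are not a sum of two nonzero
elements of `S`. -/
def minGens (S : AddSubmonoid ℕ) : Set ℕ :=
  {g | g ∈ S ∧ g ≠ 0 ∧ ∀ a ∈ S, ∀ b ∈ S, a + b = g → a = 0 ∨ b = 0}

/-- The elements of `S` that are at most `F`. -/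
def smallElements (S : AddSubmonoid ℕ) (F : ℕ) : Set ℕ := {x | x ∈ S ∧ x ≤ F}

/-- For a numerical semigroup `S` with largest gap `F` and multiplicity `m`:
`e(S) n(S) ≥ (log 2) (F + 1) + (1 - log 2) m`. -/
theorem result (S : AddSubmonoid ℕ) (F m : ℕ) (hF : IsGreatest {x : ℕ | x ∉ S} F)
    (hm : IsLeast {x : ℕ | x ∈ S ∧ x ≠ 0} m) :
    Real.log 2 * ((F : ℝ) + 1) + (1 - Real.log 2) * m ≤
      ((minGens S).ncard : ℝ) * ((smallElements S F).ncard : ℝ) :=
  Pool.Agent.H306Z.Wilf.one S F m hF.1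
    (fun z hz => by
      by_contra hc
      exact absurd (hF.2 hc) (not_le.mpr hz))
    hm.1.1 (Nat.pos_of_ne_zero hm.1.2) (fun _ hs hs0 => hm.2 ⟨hs, hs0⟩)

end Pool.Agent.Results.MP_299528_co.AWilfLogTwo
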